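import Pool.Agent.EDX.Stmts2

/-!
# EDX, row CNT: counting the components
-/

set_option autoImplicit false

namespace Pool.Agent.EDX.H26

open Polynomial Finset Pool.Agent.EDG Pool.Agent.EDX

theorem two_not_isUnit : ¬ IsUnit (2 : ℤ[X]) := by
  intro h
  rw [Polynomial.isUnit_iff] at h
  obtain ⟨r, hr, h2⟩ := h
  have h3 : (C r : ℤ[X]).coeff 0 = (2 : ℤ[X]).coeff 0 := by rw [h2]
  rw [coeff_C_zero] at h3
  have h4 : (2 : ℤ[X]).coeff 0 = 2 := by
    have : (2 : ℤ[X]) = C 2 := rfl
    rw [this, coeff_C_zero]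
  rw [h4] at h3
  rw [h3, Int.isUnit_iff] at hr
  omega

/-- some coefficient of an irreducible polynomial is odd -/
theorem odd_coeff (ψ : ℤ[X][X]) (hi : Irreducible ψ) (hd : 0 < ψ.natDegree) :
    ∃ e m, (((ψ.coeff e).coeff m : ℤ) : FF) ≠ 0 := by
  by_contra hcon
  push Not at hcon
  have hprim : ψ.IsPrimitive := hi.isPrimitive hd.ne'
  have : CharP FF 2 := charP_of_injective_algebraMap (algebraMap (ZMod 2) FF).injective 2
  have h2 : (C (2 : ℤ[X])) ∣ ψ := by
    rw [C_dvd_iff_dvd_coeff]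
    intro e
    have h3 : (C (2 : ℤ)) ∣ ψ.coeff e := by
      rw [C_dvd_iff_dvd_coeff]
      intro m
      exact_mod_cast (CharP.intCast_eq_zero_iff FF 2 _).mp (hcon e m)
    exact h3
  exact two_not_isUnit (hprim 2 h2)

theorem roots_card (ψ : ℤ[X][X]) (hi : Irreducible ψ) (hd : 0 < ψ.natDegree) (T : Finset FF)
    (hT : ∀ θ ∈ T, vt θ ψ = 0) : T.card ≤ ψ.natDegree := by
  classical
  obtain ⟨e₀, m, hem⟩ := odd_coeff ψ hi hd
  set c : FF[X] := ∑ e ∈ range (ψ.natDegree + 1), C (((ψ.coeff e).coeff m : ℤ) : FF) * X ^ e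
    with hc
  have hcdeg : c.natDegree ≤ ψ.natDegree := by
    apply natDegree_sum_le_of_forall_le
    intro e he
    refine (natDegree_C_mul_X_pow_le _ _).trans ?_
    exact Nat.lt_succ_iff.mp (Finset.mem_range.mp he)
  have he₀ : e₀ ≤ ψ.natDegree := by
    by_contra hlt
    push Not at hlt
    apply hem
    rw [coeff_eq_zero_of_natDegree_lt hlt]
    simp
  have hc0 : c ≠ 0 := by
    intro h
    apply hem
    have h1 : c.coeff e₀ = (((ψ.coeff e₀).coeff m : ℤ) : FF) := by
      rw [hc, finsetSum_coeff, Finset.sum_eq_single e₀]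
      · simp
      · intro b _ hb
        rw [coeff_C_mul, coeff_X_pow, if_neg (Ne.symm hb), mul_zero]
      · intro hn
        exact absurd (Finset.mem_range.mpr (Nat.lt_succ_iff.mpr he₀)) hn
    rw [← h1, h, coeff_zero]
  have hsub : T ⊆ c.roots.toFinset := by
    intro θ hθ
    rw [Multiset.mem_toFinset, mem_roots hc0, IsRoot.def]
    have h1 : (vt θ ψ).coeff m = c.eval θ := by
      have h2 : vt θ ψ = ∑ e ∈ range (ψ.natDegree + 1),
          (ψ.coeff e).map (Int.castRingHom FF) * (C θ) ^ e := by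
        rw [vt, coe_eval₂RingHom, eval₂_eq_sum_range]
        rfl
      rw [h2, finsetSum_coeff, hc, eval_finsetSum]
      apply Finset.sum_congr rfl
      intro e _
      rw [← C_pow, coeff_mul_C, coeff_map, eval_mul, eval_C, eval_pow, eval_X]
      simp
    rw [← h1, hT θ hθ, coeff_zero]
  calc T.card ≤ c.roots.toFinset.card := Finset.card_le_card hsub
    _ ≤ c.roots.card := Multiset.toFinset_card_le _
    _ ≤ c.natDegree := card_roots' c
    _ ≤ ψ.natDegree := hcdeg

theorem vt_assoc {θ : FF} {φ ψ : ℤ[X][X]} (h : Associated φ ψ) (h0 : vt θ φ = 0) : vt θ ψ = 0 := by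
  obtain ⟨u, hu⟩ := h
  rw [← hu, map_mul, h0, zero_mul]

theorem assoc_of_map {φ ψ : ℤ[X][X]} (hφ : Irreducible φ) (hψ : Irreducible ψ)
    (hdφ : 0 < φ.natDegree) (h : φ.map iK ∣ ψ.map iK) : Associated φ ψ := by
  have h1 : φ ∣ ψ :=
    (hφ.isPrimitive hdφ.ne').dvd_of_fraction_map_dvd_fraction_map (K := KK) h
  exact hφ.associated_of_dvd hψ h1

theorem coprime_map {φ ψ : ℤ[X][X]} (hφ : Irreducible φ) (hψ : Irreducible ψ)
    (hdφ : 0 < φ.natDegree) (hn : ¬ Associated φ ψ) :
    IsCoprime (φ.map iK) (ψ.map iK) := by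
  have h1 : Irreducible (φ.map iK) :=
    ((hφ.isPrimitive hdφ.ne').irreducible_iff_irreducible_map_fraction_map (K := KK)).1 hφ
  rcases h1.isCoprime_or_dvd (ψ.map iK) with h | h
  · exact h
  · exact absurd (assoc_of_map hφ hψ hdφ h) hn

/-- **Row CNT.** -/
theorem cnt : CntStmt := by
  classical
  intro Φ J Θ ψ hΦ h1 h2
  set S : Finset (FF × ℕ) := Θ ×ˢ range (J + 1) with hS
  set cls : FF × ℕ → Associates ℤ[X][X] := fun p => Associates.mk (ψ p.1 p.2) with hcls
  set R : Finset (Associates ℤ[X][X]) := S.image cls with hR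
  have hmem : ∀ x ∈ S, x.1 ∈ Θ ∧ x.2 ≤ J := by
    intro x hx
    rw [hS, Finset.mem_product, Finset.mem_range] at hx
    exact ⟨hx.1, Nat.lt_succ_iff.mp hx.2⟩
  have hrep : ∀ a ∈ R, ∃ p ∈ S, cls p = a := fun a ha => Finset.mem_image.mp ha
  choose! p hpS hpa using hrep
  set rep : Associates ℤ[X][X] → ℤ[X][X] := fun a => ψ (p a).1 (p a).2 with hrepd
  have hrepP : ∀ a ∈ R, Irreducible (rep a) ∧ 0 < (rep a).natDegree ∧ (rep a).map iK ∣ Φ := by
    intro a ha
    obtain ⟨hΘ, hJ⟩ := hmem _ (hpS a ha)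
    obtain ⟨ha1, ha2, ha3, -⟩ := h1 _ hΘ _ hJ
    exact ⟨ha1, ha2, ha3⟩
  have hfib : ∀ a ∈ R, (S.filter fun x => cls x = a).card ≤ (rep a).natDegree := by
    intro a ha
    have hinj : Set.InjOn Prod.fst (S.filter fun x => cls x = a : Set (FF × ℕ)) := by
      intro x hx y hy hxy
      have hx' := Finset.mem_filter.mp (Finset.mem_coe.mp hx)
      have hy' := Finset.mem_filter.mp (Finset.mem_coe.mp hy)
      have hass : Associated (ψ x.1 x.2) (ψ y.1 y.2) := by
        rw [← Associates.mk_eq_mk_iff_associated]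
        exact hx'.2.trans hy'.2.symm
      obtain ⟨hx1, hx2⟩ := hmem _ hx'.1
      obtain ⟨hy1, hy2⟩ := hmem _ hy'.1
      rcases lt_trichotomy x.2 y.2 with hlt | heq | hgt
      · rw [← hxy] at hass
        exact absurd hass (h2 _ hx1 _ _ hlt hy2)
      · exact Prod.ext hxy heq
      · rw [hxy] at hass
        exact absurd hass.symm (h2 _ hy1 _ _ hgt hx2)
    rw [← Finset.card_image_of_injOn hinj]
    apply roots_card (rep a) (hrepP a ha).1 (hrepP a ha).2.1
    intro θ hθ
    obtain ⟨x, hx, rfl⟩ := Finset.mem_image.mp hθ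
    have hx' := Finset.mem_filter.mp hx
    obtain ⟨hx1, hx2⟩ := hmem _ hx'.1
    have hass : Associated (ψ x.1 x.2) (rep a) := by
      rw [← Associates.mk_eq_mk_iff_associated]
      exact hx'.2.trans (hpa a ha).symm
    exact vt_assoc hass (h1 _ hx1 _ hx2).2.2.2
  have hdvd : ∏ a ∈ R, (rep a).map iK ∣ Φ := by
    apply Finset.prod_dvd_of_coprime
    · intro a ha b hb hab
      have ha' := Finset.mem_coe.mp ha
      have hb' := Finset.mem_coe.mp hb
      apply coprime_map (hrepP a ha').1 (hrepP b hb').1 (hrepP a ha').2.1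
      intro hass
      apply hab
      rw [← hpa a ha', ← hpa b hb']
      exact Associates.mk_eq_mk_iff_associated.mpr hass
    · intro a ha
      exact (hrepP a ha).2.2
  have hsum : ∑ a ∈ R, (rep a).natDegree ≤ Φ.natDegree := by
    have hne : ∀ a ∈ R, (rep a).map iK ≠ 0 := by
      intro a ha h
      have h3 := (hrepP a ha).2.2
      rw [h, zero_dvd_iff] at h3
      exact hΦ h3
    have h4 := natDegree_le_of_dvd hdvd hΦ
    rw [natDegree_prod _ _ hne] at h4
    refine le_trans (le_of_eq ?_) h4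
    apply Finset.sum_congr rfl
    intro a _
    rw [natDegree_map_eq_of_injective iK_injective]
  have hcard : S.card = ∑ a ∈ R, (S.filter fun x => cls x = a).card :=
    Finset.card_eq_sum_card_image cls S
  have hS2 : S.card = (J + 1) * Θ.card := by
    rw [hS, Finset.card_product, Finset.card_range, mul_comm]
  rw [← hS2, hcard]
  exact (Finset.sum_le_sum hfib).trans hsum

end Pool.Agent.EDX.H26
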